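import Pool.Agent.Lib.MP_5e7226_co.C8.SY.DQ0S

/-!
# Trees of certificates for symmetric bodies and seven directions as terms, without Mathlib

The evaluated functions are those of `SY.DQ0S`. The files with the certificates import only this
file.
-/

set_option autoImplicit false

namespace Pool.Agent.Lib.MP_5e7226_co.C8.SD7

open SD

/-- the state has a tree of accepted certificates -/
inductive Cs : List Nat → List Nat → Prop
  /-- a query: a pair of opposite points -/
  | nd {K F : List Nat} (y y2 : Nat) (h : ng y y2 = true) (a : Cs (y2 :: y :: K) F)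
      (b : Cs K (y2 :: y :: F)) : Cs K F
  /-- a leaf with a surface -/
  | lv {K F : List Nat} (H W V S : Nat) (h : lm 7 K F H W V S = true) : Cs K F
  /-- a leaf with a surface, short form -/
  | ly {K F : List Nat} (H : Nat) (h : my 7 3 K F H = true) : Cs K F
  /-- a leaf near a parallelepiped -/
  | lz {K F : List Nat} (H e1 e2 e3 S0 S1 S2 S3 S4 S5 S6 S7 : Nat)
      (h : zs K F H e1 e2 e3 S0 S1 S2 S3 S4 S5 S6 S7 = true) : Cs K F
  /-- a leaf with cones -/
  | lu {K F : List Nat} (H W S0 S1 S2 S3 S4 S5 S6 S7 : Nat)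
      (h : cuS 7 K F [] [] H W S0 S1 S2 S3 S4 S5 S6 S7 = true) : Cs K F
  /-- a stronger state which is done -/
  | rs {K F : List Nat} (s : SP) (t : Cs s.K s.F) (h2 : has2 s.K = true)
      (h : rb K F s = true) : Cs K F

/-- the state `s` is done -/
def Ds (s : SP) : Prop := Cs s.K s.F ∧ has2 s.K = true

/-- the end -/
theorem fin {s : SP} (t : Cs s.K s.F) (h : has2 s.K = true) : Ds s := ⟨t, h⟩

/-- a state which is done -/
theorem rf {K F : List Nat} {s : SP} (g : Ds s) (h : rb K F s = true) : Cs K F :=
  Cs.rs s g.1 g.2 h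

end Pool.Agent.Lib.MP_5e7226_co.C8.SD7
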