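import Pool.Agent.Lib.MP_5e7226_co.C8.SY.Terms

/-!
# Trees of leaves as terms for symmetric bodies and seven directions
-/

set_option autoImplicit false

open Set

namespace Pool.Agent.Lib.MP_5e7226_co.C8

open GB TF TP TM

namespace SY7

open SY

/-- the target: illuminated by seven directions, or a parallelepiped -/
def Q7 (L : Set E) : Prop := Illum L 7 ∨ L7.IsPar L

lemma illum7 {L : Set E} (h : Illum L 6) : Illum L 7 := by
  obtain ⟨d, hd⟩ := h
  refine ⟨fun i => if h : (i : ℕ) < 6 then d ⟨i, h⟩ else 0, fun y hy => ?_⟩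
  obtain ⟨i, t, ht, hi⟩ := hd y hy
  refine ⟨⟨i, by omega⟩, t, ht, ?_⟩
  simp only [i.2, dite_true]
  exact hi

lemma q7_of_q6 {L : Set E} (h : Q6 L) : Q7 L := h.imp_left illum7

lemma tgt7 : T7.Tgt 7 Q7 where
  ill _ h := Or.inl h
  img T L h := by
    rcases h with h | h
    · exact Or.inl (h.of_image T)
    · exact Or.inr (T7.isPar_img T h)
  tr a L h := by
    rcases h with h | h
    · exact Or.inl (T7.illum_tr a h)
    · exact Or.inr (T7.isPar_tr a h)

/-- the symmetric bodies in the state have the property -/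
def GS (s : SP) : Prop := ∀ L ∈ symCls 1024, KS s.K ⊆ L → (∀ x ∈ KS s.F, x ∉ L) → Q7 L

/-- the statement of a state in a tree -/
def TS (K F : List ℕ) : Prop :=
  (0 : E) ∈ convexHull ℝ (KS K) → ∀ L ∈ symCls 1024, KS K ⊆ L → (∀ x ∈ KS F, x ∉ L) → Q7 L

/-- a query: a pair of opposite points -/
theorem nds {K F : List ℕ} (y y2 : ℕ) (h : ng y y2 = true) (a : TS (y2 :: y :: K) F)
    (b : TS K (y2 :: y :: F)) : TS K F := by
  intro h0 L hL hK hF
  have e := ng_rp h
  by_cases hy : rp y ∈ L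
  · have hy2 : rp y2 ∈ L := by
      rw [e]
      exact (facts hL).2.2.1 _ hy
    refine a (zero_cons (zero_cons h0 y) y2) L hL ?_ hF
    rw [KS_cons, KS_cons]
    exact insert_subset hy2 (insert_subset hy hK)
  · have hy2 : rp y2 ∉ L := by
      intro h2
      have h3 := (facts hL).2.2.1 _ h2
      rw [e, neg_neg] at h3
      exact hy h3
    refine b h0 L hL hK ?_
    rw [KS_cons, KS_cons]
    rintro x (rfl | rfl | hx)
    · exact hy2
    · exact hy
    · exact hF x hx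

lemma q7_of_phi {W : ℕ} {L : Set E} (hph : ∀ x ∈ L, Phi (Wf 7 (Wl 7 W)) (JQ []) L x) : Q7 L := by
  by_cases h : ∀ x ∈ L, ∃ i, Serve L x (-(Wf 7 (Wl 7 W) i))
  · refine Or.inl ⟨fun i => -(Wf 7 (Wl 7 W) i), fun y hy => ?_⟩
    obtain ⟨i, t, ht, hi⟩ := h y hy
    exact ⟨i, t, ht, hi⟩
  · push Not at h
    obtain ⟨x, hx, hun⟩ := h
    rcases hph x hx with (hi | ⟨i, hi⟩) | ⟨k, hk, hkL, hkx⟩
    · exact absurd (serve_interior hi _) (hun ⟨0, by norm_num⟩)
    · exact absurd hi (hun i)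
    · obtain ⟨g, hg, _⟩ := hk
      exact absurd hg (by simp)

/-- a leaf with a surface -/
theorem lvs {K F : List ℕ} (H W V S : ℕ) (h : SY.lm 7 K F H W V S = true) : TS K F :=
  fun _ L hL hK hF => q7_of_phi (SY.lm_sound (n := 7) (by norm_num) h L hL hK hF)

/-- a leaf with cones -/
theorem lus {K F : List ℕ} (H W S0 S1 S2 S3 S4 S5 S6 S7 : ℕ)
    (h : TR.cuS 7 K F [] [] H W S0 S1 S2 S3 S4 S5 S6 S7 = true) : TS K F := by
  intro h0 L hL hK hF
  refine q7_of_phi (TR.cuS_sound h0 h L hL ⟨hK, hF, ?_⟩)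
  rintro f ⟨g, hg, _⟩
  simp at hg

/-- a leaf near a parallelepiped -/
theorem lzs {K F : List ℕ} (H e1 e2 e3 S0 S1 S2 S3 S4 S5 S6 S7 : ℕ)
    (h : zs K F H e1 e2 e3 S0 S1 S2 S3 S4 S5 S6 S7 = true) : TS K F :=
  fun h0 L hL hK hF => q7_of_q6 (zs_sound h0 h L hL hK hF)

/-- a state which is done -/
theorem rfs {K F : List ℕ} {s : SP} (g : GS s) (h : SY.rb K F s = true) : TS K F := by
  obtain ⟨h, h1⟩ := br h
  intro _ L hL hK hF
  exact g L hL ((KS_mono (TR.sb_sub h1)).trans hK)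
    (fun x hx => hF x (KS_mono (TR.sb_sub h) hx))

/-- the end -/
theorem fin {s : SP} (t : TS s.K s.F) (h : has2 s.K = true) : GS s := t (zero_of_has2 h)

/-- a packed state gives a state of the root chain -/
theorem root_of_gs {K F : List ℕ} {K' F' : List (ℤ × ℤ × ℤ)} (h : GS ⟨K, F⟩)
    (hK : subZ K K' = true) (hF : subZ F F' = true) :
    T7.GoodQ Q7 (symCls 1024) ⟨ptsZ K', ptsZ F', ∅⟩ := by
  intro L hL hs
  exact h L hL ((subZ_sound hK).trans hs.pts) (fun x hx => hs.out x (subZ_sound hF hx))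

/-- the symmetric bodies -/
theorem illum7_of_root {ys : List (ℤ × ℤ × ℤ)} (h : RootS Q7 1024 [] ys) (S : Set E)
    (hc : Convex ℝ S) (hk : IsCompact S) (hi : (interior S).Nonempty) (hs : ∀ x ∈ S, -x ∈ S) :
    Illum S 7 ∨ L7.IsPar S :=
  body_of_root tgt7 (by norm_num) h S hc hk hi hs

end SY7

end Pool.Agent.Lib.MP_5e7226_co.C8
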