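import Pool.Agent.Lib.MP_5e7226_co.C8.SY.DQSS
import Pool.Agent.Lib.MP_5e7226_co.C8.SY7.DQ7
import Pool.Agent.Lib.MP_5e7226_co.C8.SY7.Terms

/-!
# Soundness of the trees of certificates for symmetric bodies and seven directions
-/

set_option autoImplicit false

open Set

namespace Pool.Agent.Lib.MP_5e7226_co.C8

open GB TF TP TM

namespace SD7

open SD

/-- a state with a tree of accepted certificates -/
theorem Cs.ts {K F : List ℕ} (t : SD7.Cs K F) : SY7.TS K F := by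
  induction t with
  | nd y y2 h a b iha ihb => exact SY7.nds y y2 h iha ihb
  | lv H W V S h => exact SY7.lvs H W V S h
  | ly H h =>
    intro _ L hL hK hF
    obtain ⟨W, h1⟩ := my_sound (n := 7) (by norm_num) h
    exact SY7.q7_of_phi (h1 L hL hK hF)
  | lz H e1 e2 e3 S0 S1 S2 S3 S4 S5 S6 S7 h =>
    rw [zs_eq] at h
    exact SY7.lzs H e1 e2 e3 S0 S1 S2 S3 S4 S5 S6 S7 h
  | lu H W S0 S1 S2 S3 S4 S5 S6 S7 h => exact SY7.lus H W S0 S1 S2 S3 S4 S5 S6 S7 h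
  | rs s t h2 h ih =>
    exact SY7.rfs (s := ⟨s.K, s.F⟩) (SY7.fin (s := ⟨s.K, s.F⟩) ih h2) h

/-- a state which is done -/
theorem Ds.gs {s : SP} (g : SD7.Ds s) : SY7.GS ⟨s.K, s.F⟩ :=
  SY7.fin (s := ⟨s.K, s.F⟩) g.1.ts g.2

end SD7

end Pool.Agent.Lib.MP_5e7226_co.C8
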