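import Pool.Agent.Lib.MP_5e7226_co.L7.Pol
import Pool.Agent.Lib.MP_5e7226_co.C8.SY.End
import Pool.Agent.Lib.MP_5e7226_co.RT.Any
import Pool.Agent.Lib.MP_5e7226_co.RG.Defs

/-!
# Symmetric bodies: the end theorems

From the illumination theorem for the bodies of the coordinate space which are symmetric about the
origin (seven directions, or a parallelepiped) to all symmetric bodies of the three-dimensional
Euclidean space: `sep7_or_cross` (separation of the faces from the centre) and `illum7_or_box`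
(illumination).
-/

set_option autoImplicit false

open Set Filter Topology
open scoped InnerProductSpace

namespace Pool.Agent.Lib.MP_5e7226_co.C8.SY7

open GB WL L7 SY

/-- all spaces of dimension three -/
theorem illum7_or_par
    (H : ∀ S : Set E, Convex ℝ S → IsCompact S → (interior S).Nonempty → (∀ x ∈ S, -x ∈ S) →
      Illum S 7 ∨ IsPar S)
    {W : Type*} [NormedAddCommGroup W] [NormedSpace ℝ W] [FiniteDimensional ℝ W]
    (hdim : Module.finrank ℝ W = 3) {L : Set W} (hc : Convex ℝ L) (hk : IsCompact L)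
    (hi : (interior L).Nonempty) (hs : ∀ x ∈ L, -x ∈ L) : Illum L 7 ∨ IsParW L := by
  let T : W ≃L[ℝ] E := ContinuousLinearEquiv.ofFinrankEq (by rw [hdim]; simp)
  have h1 := H (T '' L) (hc.linear_image T.toLinearEquiv.toLinearMap) (hk.image T.continuous) (by
    obtain ⟨x, hx⟩ := hi
    exact ⟨_, T.toHomeomorph.isOpenMap.image_interior_subset L ⟨x, hx, rfl⟩⟩) (by
    rintro _ ⟨x, hx, rfl⟩
    exact ⟨-x, hs x hx, map_neg T x⟩)
  rcases h1 with h1 | h1
  · exact Or.inl (Illum.of_image T h1)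
  · right
    have h2 : IsParW (T '' L) := h1
    have h3 := h2.image T.symm.toLinearEquiv 0
    have h4 : (fun y => (0 : W) + T.symm.toLinearEquiv y) '' (T '' L) = L := by
      rw [← image_comp]
      ext x
      simp
    rwa [h4] at h3

/-- Separation: seven planes, or the convex hull of three segments with the midpoint `o`. -/
theorem sep7_or_cross
    (H : ∀ S : Set E, Convex ℝ S → IsCompact S → (interior S).Nonempty → (∀ x ∈ S, -x ∈ S) →
      Illum S 7 ∨ IsPar S)
    (K : Set (EuclideanSpace ℝ (Fin 3))) (hconv : Convex ℝ K) (hK : IsCompact K)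
    (o : EuclideanSpace ℝ (Fin 3)) (ho : o ∈ interior K) (hs : ∀ x ∈ K, (2 : ℝ) • o - x ∈ K) :
    (∃ w : Fin 7 → EuclideanSpace ℝ (Fin 3), ∃ b : Fin 7 → ℝ,
      ∀ u x₀ : EuclideanSpace ℝ (Fin 3), u ≠ 0 → x₀ ∈ K →
        (∀ y ∈ K, ⟪u, y⟫_ℝ ≤ ⟪u, x₀⟫_ℝ) →
          ∃ i, ⟪w i, o⟫_ℝ < b i ∧
            ∀ x ∈ K, ⟪u, x⟫_ℝ = ⟪u, x₀⟫_ℝ → b i < ⟪w i, x⟫_ℝ) ∨
    ∃ v : Fin 3 → EuclideanSpace ℝ (Fin 3), LinearIndependent ℝ v ∧
      K = convexHull ℝ (⋃ i, ({o + v i, o - v i} : Set (EuclideanSpace ℝ (Fin 3)))) := by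
  set K' : Set (EuclideanSpace ℝ (Fin 3)) := (fun x => x - o) '' K with hK'
  have hKc : IsCompact K' := hK.image (continuous_id.sub continuous_const)
  have hKv : Convex ℝ K' := conv_sub hconv o
  have hKs : ∀ x ∈ K', -x ∈ K' := sym_sub hs
  have h0 : (0 : EuclideanSpace ℝ (Fin 3)) ∈ interior K' :=
    (Homeomorph.subRight o).isOpenMap.image_interior_subset K ⟨o, ho, by simp⟩
  have hdim : Module.finrank ℝ (EuclideanSpace ℝ (Fin 3)) = 3 := by simp
  have hdual : Module.finrank ℝ (EuclideanSpace ℝ (Fin 3) →L[ℝ] ℝ) = 3 := by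
    have h1 := (LinearMap.toContinuousLinearMap (𝕜 := ℝ) (E := EuclideanSpace ℝ (Fin 3))
      (F' := ℝ)).symm.finrank_eq
    have h2 := Subspace.dual_finrank_eq (K := ℝ) (V := EuclideanSpace ℝ (Fin 3))
    exact h1.trans (h2.trans hdim)
  rcases illum7_or_par H hdual (polarBody_convex K')
    (Metric.isCompact_of_isClosed_isBounded (polarBody_closed K') (polarBody_bounded h0))
    ⟨0, polarBody_zero_mem_interior hKc⟩ (fun f hf x hx => by
      have h1 := hf (-x) (hKs x hx)
      rw [map_neg] at h1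
      exact h1) with h | h
  · left
    exact sep_to_hyperplanes hK o (Sep.of_illum_polar hKc h0 h)
  · right
    have h2 := h.image (InnerProductSpace.toDual ℝ (EuclideanSpace ℝ (Fin 3))).symm.toLinearEquiv 0
    have h3 : (fun y => (0 : EuclideanSpace ℝ (Fin 3)) +
        (InnerProductSpace.toDual ℝ (EuclideanSpace ℝ (Fin 3))).symm.toLinearEquiv y) ''
          polarBody K' = pol K' := by
      ext g
      constructor
      · rintro ⟨f, hf, rfl⟩
        intro x hx
        have := hf x hx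
        simpa using this
      · intro hg
        refine ⟨InnerProductSpace.toDual ℝ _ g, ?_, by simp⟩
        intro x hx
        simpa using hg x hx
    rw [h3] at h2
    obtain ⟨v, t, hv, ht, hKe⟩ := cross_of_par hdim hKc hKv h0 h2
    have ht1 : ∀ k, t k = 1 := cross_sym hdim hv ht hKe hKs
    refine ⟨v, hv, ?_⟩
    have h4 : K = (fun x => o + x) '' K' := by
      rw [hK', Set.image_image]
      simp
    have h5 : (fun x => o + x) '' (convexHull ℝ (⋃ k, {v k, -(t k • v k)})) =
        convexHull ℝ ((fun x => o + x) '' (⋃ k, {v k, -(t k • v k)})) :=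
      (AffineEquiv.constVAdd ℝ (EuclideanSpace ℝ (Fin 3)) o).toAffineMap.image_convexHull _
    have h6 : (fun x => o + x) '' (⋃ k, {v k, -(t k • v k)}) =
        ⋃ k, {o + v k, o - v k} := by
      rw [Set.image_iUnion]
      refine Set.iUnion_congr fun k => ?_
      rw [Set.image_pair, ht1 k, one_smul, ← sub_eq_add_neg]
    rw [h4, hKe, h5, h6]

/-- Illumination: seven directions, or a parallelepiped with the centre `c`. -/
theorem illum7_or_box
    (H : ∀ S : Set E, Convex ℝ S → IsCompact S → (interior S).Nonempty → (∀ x ∈ S, -x ∈ S) →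
      Illum S 7 ∨ IsPar S)
    (S : Set (EuclideanSpace ℝ (Fin 3))) (hconv : Convex ℝ S) (hS : IsCompact S)
    (hi : (interior S).Nonempty) (c : EuclideanSpace ℝ (Fin 3))
    (hs : ∀ x ∈ S, (2 : ℝ) • c - x ∈ S) :
    (∃ d : Fin 7 → EuclideanSpace ℝ (Fin 3), ∀ y ∈ S, ∃ i, ∃ t : ℝ, 0 < t ∧
      y + t • d i ∈ interior S) ∨
    ∃ v : Fin 3 → EuclideanSpace ℝ (Fin 3), LinearIndependent ℝ v ∧
      S = {y | ∃ t : Fin 3 → ℝ, (∀ i, |t i| ≤ 1) ∧ y = c + ∑ i, t i • v i} := by
  have hdim : Module.finrank ℝ (EuclideanSpace ℝ (Fin 3)) = 3 := by simp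
  have hi' : (interior ((fun x => x - c) '' S)).Nonempty := by
    obtain ⟨x, hx⟩ := hi
    exact ⟨x - c, (Homeomorph.subRight c).isOpenMap.image_interior_subset S ⟨x, hx, rfl⟩⟩
  rcases illum7_or_par H hdim (conv_sub hconv c) (hS.image (continuous_id.sub continuous_const)) hi'
    (sym_sub hs) with h | h
  · left
    obtain ⟨d, hd⟩ := h
    refine ⟨d, fun y hy => ?_⟩
    obtain ⟨i, t, ht, hit⟩ := hd (y - c) ⟨y, hy, rfl⟩
    refine ⟨i, t, ht, ?_⟩
    have h1 := (Homeomorph.addRight c).isOpenMap.image_interior_subset ((fun x => x - c) '' S)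
      ⟨_, hit, rfl⟩
    have h2 : (Homeomorph.addRight c) '' ((fun x => x - c) '' S) = S := by
      rw [Set.image_image]
      simp
    rw [h2] at h1
    have h3 : (Homeomorph.addRight c) (y - c + t • d i) = y + t • d i := by
      simp only [Homeomorph.coe_addRight]
      abel
    rwa [h3] at h1
  · right
    obtain ⟨e, he, hL⟩ := par_center h (sym_sub hs)
    refine ⟨e, he, ?_⟩
    ext y
    constructor
    · intro hy
      have h1 : y - c ∈ (fun x => x - c) '' S := ⟨y, hy, rfl⟩
      rw [hL] at h1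
      obtain ⟨t, ht, e1⟩ := h1
      exact ⟨t, ht, by rw [← e1]; abel⟩
    · rintro ⟨t, ht, rfl⟩
      have h1 : ∑ i, t i • e i ∈ (fun x => x - c) '' S := by
        rw [hL]
        exact ⟨t, ht, rfl⟩
      obtain ⟨z, hz, e1⟩ := h1
      have e2 : c + ∑ i, t i • e i = z := by
        rw [← e1]
        show c + (z - c) = z
        abel
      rw [e2]
      exact hz

/-- Bodies with a centre, from the theorem in the coordinate space. -/
theorem good_of_centre
    (H : ∀ S : Set E, Convex ℝ S → IsCompact S → (interior S).Nonempty → (∀ x ∈ S, -x ∈ S) →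
      Illum S 7 ∨ IsPar S)
    {K : Set (EuclideanSpace ℝ (Fin 3))} {o : EuclideanSpace ℝ (Fin 3)} (hconv : Convex ℝ K)
    (hcomp : IsCompact K) (ho : o ∈ interior K) (hs : ∀ x ∈ K, (2 : ℝ) • o - x ∈ K) :
    RG.Good K o := by
  have h8 := RT.any8 hconv hcomp ho (g := -LinearMap.id) (fun x => by
    have key : ∀ y, o + y ∈ K → o + (-y) ∈ K := by
      intro y hy
      have := hs _ hy
      have e : (2 : ℝ) • o - (o + y) = o + (-y) := by
        rw [two_smul]
        abel
      rwa [e] at this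
    constructor
    · intro hx
      exact key x hx
    · intro hx
      have := key _ hx
      simpa using this) (by
    refine ⟨EuclideanSpace.single 0 1, fun h => ?_⟩
    have h1 := congrArg (fun v : EuclideanSpace ℝ (Fin 3) => v 0) h
    simp at h1
    norm_num at h1)
  refine ⟨h8.1, ?_, h8.2, ?_⟩
  · intro hn
    rcases sep7_or_cross H K hconv hcomp o ho hs with h | ⟨v, hv, hK⟩
    · exact absurd h hn
    · refine ⟨v, fun _ => 1, hv, fun _ => one_pos, ?_⟩
      simpa using hK
  · intro hn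
    rcases illum7_or_box H K hconv hcomp ⟨o, ho⟩ o hs with ⟨d, hd⟩ | ⟨v, hv, hK⟩
    · exact absurd (HX.points_of_dirs hcomp
        ⟨d, fun q hq => hd q (hcomp.isClosed.frontier_subset hq)⟩) hn
    · exact ⟨o, v, hv, hK⟩

end Pool.Agent.Lib.MP_5e7226_co.C8.SY7
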